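import Pool.Agent.Q225.VL.LB

/-!
# Job VL-3 of helper85: comparison of the fluxes at two scales
-/

set_option autoImplicit false

open MeasureTheory Set Metric Filter Topology
open scoped ContDiff
open H459R3.NS Pool.Agent.W268.NS Pool.Agent.Q67.VD
open Pool.Agent.Q85.CC Pool.Agent.Q85.CL Pool.Agent.Q151.CC Pool.Agent.Q85.VL

namespace Pool.Agent.Q225.VL

section main

variable {κ ρ R r : ℝ} {x : V} {f m : V → ℝ} {W : V → V} {g : V → ℝ}

lemma cd_TT (hB : StmBas) (hρ : 0 < ρ) (h : LF κ R x f m W g) (r : ℝ) :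
    ContDiff ℝ 1 (TT κ ρ g x r) := by
  unfold TT
  exact hB.2.1.comp (((cd_ww hB hρ h).add contDiff_const).div_const _)

lemma fd_TT (hB : StmBas) (hρ : 0 < ρ) (h : LF κ R x f m W g) (r : ℝ) (y n : V) :
    fderiv ℝ (TT κ ρ g x r) y n =
      stp' ((ww κ ρ g x y + κ * r / 8) / (κ * r / 16)) / (κ * r / 16) *
        fderiv ℝ (ww κ ρ g x) y n := by
  have hu : DifferentiableAt ℝ (ww κ ρ g x) y := (cd_ww hB hρ h).differentiable one_ne_zero y
  have h1 : HasDerivAt (fun t : ℝ => stp ((t + κ * r / 8) / (κ * r / 16)))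
      (stp' ((ww κ ρ g x y + κ * r / 8) / (κ * r / 16)) * (1 / (κ * r / 16)))
      (ww κ ρ g x y) :=
    (hB.1 _).comp _ (((hasDerivAt_id _).add_const _).div_const _)
  have h2 := fd_comp h1 hu n
  change fderiv ℝ (fun z => stp ((ww κ ρ g x z + κ * r / 8) / (κ * r / 16))) y n = _
  rw [h2]
  ring

lemma u_sub_w (y : V) : uu κ ρ g x y - ww κ ρ g x y = κ / 4 * ds x ρ y := by
  unfold uu ww
  ring

/-- `ψ_r` -/
noncomputable def psi (κ ρ : ℝ) (g : V → ℝ) (x : V) (r : ℝ) (y : V) : ℝ :=
  stp' ((uu κ ρ g x y - κ * r / 64) / (κ * r / 64)) / (κ * r / 64)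

lemma pr_eq (y : V) : pr κ ρ g x W m r y =
    TT κ ρ g x r y * (psi κ ρ g x r y * (fderiv ℝ (uu κ ρ g x) y (W y) + m y)) := rfl

lemma psi_nonneg (hB : StmBas) (hκ : 0 < κ) (hr : 0 < r) (y : V) : 0 ≤ psi κ ρ g x r y :=
  div_nonneg (hB.2.2.2.2.1 _).2.2.1 (by positivity)

lemma psi_le (hB : StmBas) (hκ : 0 < κ) (hr : 0 < r) (y : V) :
    psi κ ρ g x r y ≤ 128 / (κ * r) := by
  have h := (hB.2.2.2.2.1 ((uu κ ρ g x y - κ * r / 64) / (κ * r / 64))).2.2.2
  unfold psi
  rw [div_le_div_iff₀ (by positivity) (by positivity)]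
  have : 0 < κ * r := by positivity
  nlinarith

lemma psi_ne (hB : StmBas) (hκ : 0 < κ) (hr : 0 < r) {y : V} (h : psi κ ρ g x r y ≠ 0) :
    κ * r / 64 < uu κ ρ g x y ∧ uu κ ρ g x y < κ * r / 32 := by
  have hκr : 0 < κ * r / 64 := by positivity
  have h1 := hB.2.2.2.2.2.2.2.1 ((uu κ ρ g x y - κ * r / 64) / (κ * r / 64)) fun e => h (by
    unfold psi
    rw [e, zero_div])
  have h2 := h1.2
  have h3 := h1.1
  rw [div_lt_one hκr] at h2
  rw [div_pos_iff_of_pos_right hκr] at h3
  exact ⟨by linarith, by linarith⟩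

lemma TT_ne (hB : StmBas) (hκ : 0 < κ) (hr : 0 < r) {y : V} (h : TT κ ρ g x r y ≠ 0) :
    -(κ * r / 8) < ww κ ρ g x y := by
  have hκr : 0 < κ * r / 16 := by positivity
  have h1 := hB.2.2.2.2.2.2.2.2.1 _ h
  rw [div_pos_iff_of_pos_right hκr] at h1
  linarith

lemma TT_one (hB : StmBas) (hκ : 0 < κ) (hr : 0 < r) {y : V}
    (h : -(κ * r / 16) ≤ ww κ ρ g x y) : TT κ ρ g x r y = 1 := by
  refine hB.2.2.2.2.2.2.1 _ ?_
  rw [le_div_iff₀ (by positivity)]
  linarith

lemma TT_nonneg (hB : StmBas) (y : V) : 0 ≤ TT κ ρ g x r y := (hB.2.2.2.2.1 _).1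

lemma TT_le_one (hB : StmBas) (y : V) : TT κ ρ g x r y ≤ 1 := (hB.2.2.2.2.1 _).2.1

lemma PS_nonneg (hB : StmBas) (y : V) : 0 ≤ PS κ ρ g x r y := (hB.2.2.2.2.1 _).1

lemma PS_le_one (hB : StmBas) (y : V) : PS κ ρ g x r y ≤ 1 := (hB.2.2.2.2.1 _).2.1

lemma PS_ne_one (hB : StmBas) (hκ : 0 < κ) (hr : 0 < r) {y : V} (h : PS κ ρ g x r y ≠ 1) :
    uu κ ρ g x y < κ * r / 32 := by
  have hκr : 0 < κ * r / 64 := by positivity
  have h1 := hB.2.2.2.2.2.2.2.2.2.1 _ h
  rw [div_lt_one hκr] at h1
  linarith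

lemma PS_zero (hB : StmBas) (hκ : 0 < κ) (hr : 0 < r) {y : V}
    (h : uu κ ρ g x y ≤ κ * r / 64) : PS κ ρ g x r y = 0 := by
  refine hB.2.2.2.2.2.1 _ ?_
  exact div_nonpos_of_nonpos_of_nonneg (by linarith) (by positivity)

lemma PS_ne_zero (hB : StmBas) (hκ : 0 < κ) (hr : 0 < r) {y : V} (h : PS κ ρ g x r y ≠ 0) :
    κ * r / 64 < uu κ ρ g x y := by
  by_contra h1
  exact h (PS_zero hB hκ hr (not_lt.1 h1))

lemma ball_of (hB : StmBas) (hκ : 0 < κ) (hρ : 0 < ρ) {y : V} {a b s : ℝ}
    (h1 : uu κ ρ g x y ≤ a) (h2 : b ≤ ww κ ρ g x y) (h3 : a - b ≤ κ / 4 * s) :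
    y ∈ closedBall x s := by
  have h4 := u_sub_w (κ := κ) (ρ := ρ) (g := g) (x := x) y
  have h5 : κ / 4 * ds x ρ y ≤ κ / 4 * s := by linarith
  have h6 : ds x ρ y ≤ s := le_of_mul_le_mul_left h5 (by positivity)
  rw [mem_closedBall, dist_eq_norm]
  exact ((hB.2.2.2.2.2.2.2.2.2.2 x ρ hρ).2.2.2.2.1 y).trans h6

lemma w_le_u (hB : StmBas) (hκ : 0 < κ) (hρ : 0 < ρ) (y : V) : ww κ ρ g x y ≤ uu κ ρ g x y := by
  have h4 := u_sub_w (κ := κ) (ρ := ρ) (g := g) (x := x) y
  have h5 : ρ ≤ ds x ρ y := (hB.2.2.2.2.2.2.2.2.2.2 x ρ hρ).2.2.1 y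
  have h6 : 0 ≤ κ / 4 * ds x ρ y := by
    have : 0 ≤ ds x ρ y := hρ.le.trans h5
    positivity
  linarith

lemma du_nonneg (hB : StmBas) (hκ : 0 < κ) (hρ : 0 < ρ) (h : LF κ R x f m W g) {y : V}
    (hy : y ∈ closedBall x R) : 0 ≤ fderiv ℝ (uu κ ρ g x) y (W y) + m y := by
  have h1 := du_lower hB hκ hρ h hy
  have h2 := f_nonneg h hy
  have h3 : 0 ≤ κ / 2 * f y := by positivity
  linarith

lemma pr_nonneg (hB : StmBas) (hκ : 0 < κ) (hρ : 0 < ρ) (h : LF κ R x f m W g) (hr : 0 < r)
    {y : V} (hy : y ∈ closedBall x R) : 0 ≤ pr κ ρ g x W m r y := by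
  rw [pr_eq]
  exact mul_nonneg (TT_nonneg hB y) (mul_nonneg (psi_nonneg hB hκ hr y)
    (du_nonneg hB hκ hρ h hy))

lemma cont_psi (hB : StmBas) (hρ : 0 < ρ) (h : LF κ R x f m W g) (r : ℝ) :
    Continuous (psi κ ρ g x r) := by
  unfold psi
  exact (hB.2.2.1.comp (((cd_uu hB hρ h).continuous.sub continuous_const).div_const _)).div_const _

lemma cont_pr (hB : StmBas) (hρ : 0 < ρ) (h : LF κ R x f m W g) (r : ℝ) :
    Continuous (pr κ ρ g x W m r) := by
  have e : pr κ ρ g x W m r = fun y => TT κ ρ g x r y *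
      (psi κ ρ g x r y * (fderiv ℝ (uu κ ρ g x) y (W y) + m y)) := rfl
  rw [e]
  exact (cd_TT hB hρ h r).continuous.mul ((cont_psi hB hρ h r).mul
    ((cont_fd (cd_uu hB hρ h) h.wd.cont).add h.mc))

end main

theorem stmCmp (hB : StmBas) : StmCmp := by
  intro κ ρ R r r' x f m W g hκ hκ1 hρ h hr' hr'r hrR
  have hr : 0 < r := by linarith
  have hκr : 0 < κ * r := by positivity
  have hκr' : 0 < κ * r' := by positivity
  have hκrr : κ * r' ≤ κ * r / 2 := by nlinarith
  have cu := cd_uu hB hρ h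
  have cw := cd_ww hB hρ h
  have cS := cd_PS hB hρ h r
  have cS' := cd_PS hB hρ h r'
  have cT' := cd_TT hB hρ h r'
  set Y : V → ℝ := fun y => TT κ ρ g x r' y * PS κ ρ g x r' y with hY
  have cY : ContDiff ℝ 1 Y := cT'.mul cS'
  set H : V → ℝ := fun y => (1 - PS κ ρ g x r y) * Y y with hH
  have cH : ContDiff ℝ 1 H := (contDiff_const.sub cS).mul cY
  have hts : tsupport H ⊆ closedBall x R := by
    refine closure_minimal (fun y hy => ?_) isClosed_closedBall
    rw [Function.mem_support] at hy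
    have h1 : PS κ ρ g x r y ≠ 1 := fun h1 => hy (by rw [hH]; simp only; rw [h1, sub_self, zero_mul])
    have h2 : TT κ ρ g x r' y ≠ 0 := fun h2 => hy (by
      rw [hH, hY]; simp only; rw [h2, zero_mul, mul_zero])
    refine closedBall_subset_closedBall hrR (ball_of hB hκ hρ (PS_ne_one hB hκ hr h1).le
      (TT_ne hB hκ hr' h2).le ?_)
    linarith
  have hdiv := h.wd.div H cH hts
  -- the derivative of `H`
  set τ : V → ℝ := fun y => stp' ((ww κ ρ g x y + κ * r' / 8) / (κ * r' / 16)) / (κ * r' / 16)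
    with hτ
  have cτ : Continuous τ := by
    rw [hτ]
    exact (hB.2.2.1.comp ((cw.continuous.add continuous_const).div_const _)).div_const _
  set A : V → ℝ := fun y => (1 - PS κ ρ g x r y) *
    (TT κ ρ g x r' y * (psi κ ρ g x r' y * fderiv ℝ (uu κ ρ g x) y (W y)) +
      PS κ ρ g x r' y * (τ y * fderiv ℝ (ww κ ρ g x) y (W y))) with hA
  set B : V → ℝ := fun y => Y y * (psi κ ρ g x r y * fderiv ℝ (uu κ ρ g x) y (W y)) with hBdef
  have hfd : ∀ y, fderiv ℝ H y (W y) = A y - B y := by
    intro y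
    have e1 : DifferentiableAt ℝ (fun y => 1 - PS κ ρ g x r y) y :=
      (contDiff_const.sub cS).differentiable one_ne_zero y
    have e2 : DifferentiableAt ℝ Y y := cY.differentiable one_ne_zero y
    have e3 : fderiv ℝ (fun y => 1 - PS κ ρ g x r y) y (W y) =
        -(psi κ ρ g x r y * fderiv ℝ (uu κ ρ g x) y (W y)) := by
      rw [fderiv_const_sub]
      have := fd_PS hB hρ h r y (W y)
      change -(fderiv ℝ (PS κ ρ g x r) y (W y)) = _
      rw [this]
      rfl
    have e4 : fderiv ℝ Y y (W y) = TT κ ρ g x r' y *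
        (psi κ ρ g x r' y * fderiv ℝ (uu κ ρ g x) y (W y)) +
        PS κ ρ g x r' y * (τ y * fderiv ℝ (ww κ ρ g x) y (W y)) := by
      have e5 := fd_mul (cT'.differentiable one_ne_zero y) (cS'.differentiable one_ne_zero y) (W y)
      rw [fd_PS hB hρ h r' y (W y), fd_TT hB hρ h r' y (W y)] at e5
      exact e5
    have e6 := fd_mul e1 e2 (W y)
    change fderiv ℝ (fun z => (1 - PS κ ρ g x r z) * Y z) y (W y) = _
    rw [e6, e3, e4, hA, hBdef]
    simp only
    ring
  have hWc := h.wd.cont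
  have cA : Continuous A := by
    rw [hA]
    exact (continuous_const.sub cS.continuous).mul ((cT'.continuous.mul
      ((cont_psi hB hρ h r').mul (cont_fd cu hWc))).add
      (cS'.continuous.mul (cτ.mul (cont_fd cw hWc))))
  have cB : Continuous B := by
    rw [hBdef]
    exact cY.continuous.mul ((cont_psi hB hρ h r).mul (cont_fd cu hWc))
  have hAB : ∫ y in closedBall x R, A y = ∫ y in closedBall x R, B y := by
    rw [integral_congr_ae (Eventually.of_forall hfd), integral_sub (int_on cA x R)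
      (int_on cB x R)] at hdiv
    linarith
  -- the left hand side
  have hAlow : ∀ y ∈ closedBall x R, pr κ ρ g x W m r' y -
      (closedBall x r).indicator (fun y => 160 / (κ * r') * m y) y ≤ A y := by
    intro y hy
    have h1 := dw_lower hB hκ hρ h hy
    have h2 := f_nonneg h hy
    have h3 := h.m0 y
    have h4 : 0 ≤ fderiv ℝ (ww κ ρ g x) y (W y) + m y := by
      have : 0 ≤ κ / 4 * f y := by positivity
      linarith
    have hP1 : 0 ≤ 1 - PS κ ρ g x r y := by
      have := PS_le_one (κ := κ) (ρ := ρ) (g := g) (x := x) (r := r) hB y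
      linarith
    have hP1' : 1 - PS κ ρ g x r y ≤ 1 := by
      have := PS_nonneg (κ := κ) (ρ := ρ) (g := g) (x := x) (r := r) hB y
      linarith
    have hI0 : 0 ≤ (closedBall x r).indicator m y := indicator_nonneg (fun y _ => h.m0 y) y
    have hI : (closedBall x r).indicator (fun y => 160 / (κ * r') * m y) y =
        128 / (κ * r') * (closedBall x r).indicator m y +
          32 / (κ * r') * (closedBall x r).indicator m y := by
      by_cases hyr : y ∈ closedBall x r
      · rw [indicator_of_mem hyr, indicator_of_mem hyr]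
        ring
      · rw [indicator_of_notMem hyr, indicator_of_notMem hyr]
        ring
    -- first term
    have t1 : pr κ ρ g x W m r' y - 128 / (κ * r') * (closedBall x r).indicator m y ≤
        (1 - PS κ ρ g x r y) *
        (TT κ ρ g x r' y * (psi κ ρ g x r' y * fderiv ℝ (uu κ ρ g x) y (W y))) := by
      by_cases hz : psi κ ρ g x r' y = 0
      · rw [pr_eq, hz]
        have : 0 ≤ 128 / (κ * r') * (closedBall x r).indicator m y := by positivity
        simpa using this
      · have e1 := psi_ne hB hκ hr' hz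
        have e2 : PS κ ρ g x r y = 0 := PS_zero hB hκ hr (by linarith)
        by_cases hT : TT κ ρ g x r' y = 0
        · rw [pr_eq, hT]
          have : 0 ≤ 128 / (κ * r') * (closedBall x r).indicator m y := by positivity
          simpa using this
        · have e3 := TT_ne hB hκ hr' hT
          have e4 : y ∈ closedBall x r := ball_of hB hκ hρ e1.2.le e3.le (by linarith)
          rw [e2, sub_zero, one_mul, pr_eq, indicator_of_mem e4]
          have e5 : TT κ ρ g x r' y * (psi κ ρ g x r' y * m y) ≤ 128 / (κ * r') * m y := by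
            have e6 := psi_le (ρ := ρ) (g := g) (x := x) hB hκ hr' y
            have e7 := psi_nonneg (ρ := ρ) (g := g) (x := x) hB hκ hr' y
            have e8 : psi κ ρ g x r' y * m y ≤ 128 / (κ * r') * m y :=
              mul_le_mul_of_nonneg_right e6 h3
            have e9 : 0 ≤ psi κ ρ g x r' y * m y := mul_nonneg e7 h3
            have e10 := TT_le_one (κ := κ) (ρ := ρ) (g := g) (x := x) (r := r') hB y
            nlinarith
          linarith
    -- second term
    have hτ0 : 0 ≤ τ y := div_nonneg (hB.2.2.2.2.1 _).2.2.1 (by positivity)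
    have hτ1 : τ y ≤ 32 / (κ * r') := by
      have e1 := (hB.2.2.2.2.1 ((ww κ ρ g x y + κ * r' / 8) / (κ * r' / 16))).2.2.2
      rw [hτ]
      simp only
      rw [div_le_div_iff₀ (by positivity) hκr']
      nlinarith
    have hS0 := PS_nonneg (κ := κ) (ρ := ρ) (g := g) (x := x) (r := r') hB y
    have hS1 := PS_le_one (κ := κ) (ρ := ρ) (g := g) (x := x) (r := r') hB y
    have t2 : -(32 / (κ * r') * (closedBall x r).indicator m y) ≤ (1 - PS κ ρ g x r y) *
        (PS κ ρ g x r' y * (τ y * fderiv ℝ (ww κ ρ g x) y (W y))) := by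
      by_cases hz : PS κ ρ g x r y = 1
      · rw [hz, sub_self, zero_mul]
        have : 0 ≤ 32 / (κ * r') * (closedBall x r).indicator m y := by positivity
        linarith
      by_cases hz2 : τ y = 0
      · rw [hz2]
        have : 0 ≤ 32 / (κ * r') * (closedBall x r).indicator m y := by positivity
        simpa using this
      · have e1 : -(κ * r' / 8) < ww κ ρ g x y := by
          have e2 := (hB.2.2.2.2.2.2.2.1 ((ww κ ρ g x y + κ * r' / 8) / (κ * r' / 16)) fun e =>
            hz2 (by rw [hτ]; simp only; rw [e, zero_div])).1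
          rw [div_pos_iff_of_pos_right (by positivity)] at e2
          linarith
        have e4 : y ∈ closedBall x r := ball_of hB hκ hρ (PS_ne_one hB hκ hr hz).le e1.le
          (by linarith)
        rw [indicator_of_mem e4]
        have e5 : 0 ≤ (1 - PS κ ρ g x r y) * (PS κ ρ g x r' y * τ y) :=
          mul_nonneg hP1 (mul_nonneg hS0 hτ0)
        have e6 : (1 - PS κ ρ g x r y) * (PS κ ρ g x r' y * τ y) ≤ 32 / (κ * r') := by
          have e7 : PS κ ρ g x r' y * τ y ≤ τ y := by nlinarith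
          have e8 : 0 ≤ PS κ ρ g x r' y * τ y := mul_nonneg hS0 hτ0
          nlinarith
        have e7 : (1 - PS κ ρ g x r y) *
            (PS κ ρ g x r' y * (τ y * fderiv ℝ (ww κ ρ g x) y (W y))) =
            (1 - PS κ ρ g x r y) * (PS κ ρ g x r' y * τ y) *
              (fderiv ℝ (ww κ ρ g x) y (W y) + m y) -
            (1 - PS κ ρ g x r y) * (PS κ ρ g x r' y * τ y) * m y := by ring
        rw [e7]
        have e8 := mul_nonneg e5 h4
        have e9 := mul_le_mul_of_nonneg_right e6 h3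
        linarith
    have e : A y = (1 - PS κ ρ g x r y) *
        (TT κ ρ g x r' y * (psi κ ρ g x r' y * fderiv ℝ (uu κ ρ g x) y (W y))) +
        (1 - PS κ ρ g x r y) *
        (PS κ ρ g x r' y * (τ y * fderiv ℝ (ww κ ρ g x) y (W y))) := by
      rw [hA]
      simp only
      ring
    rw [e, hI]
    linarith
  have cpr' := cont_pr hB hρ h r'
  have hleft : AA κ ρ R g x W m r' - 160 / (κ * r') * (∫ y in closedBall x r, m y) ≤
      ∫ y in closedBall x R, A y := by
    have i2 : IntegrableOn ((closedBall x r).indicator (fun y => 160 / (κ * r') * m y))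
        (closedBall x R) :=
      (int_on (continuous_const.mul h.mc) x R).indicator measurableSet_closedBall
    have e1 : AA κ ρ R g x W m r' - 160 / (κ * r') * (∫ y in closedBall x r, m y) =
        ∫ y in closedBall x R, (pr κ ρ g x W m r' y -
          (closedBall x r).indicator (fun y => 160 / (κ * r') * m y) y) := by
      rw [integral_sub (int_on cpr' x R) i2, setIntegral_indicator measurableSet_closedBall,
        inter_eq_right.2 (closedBall_subset_closedBall hrR), integral_const_mul]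
      rfl
    rw [e1]
    exact setIntegral_mono_on ((int_on cpr' x R).sub i2) (int_on cA x R)
      measurableSet_closedBall hAlow
  -- the right hand side
  have hBup : ∀ y ∈ closedBall x R, B y ≤ pr κ ρ g x W m r y := by
    intro y hy
    have h1 := du_nonneg hB hκ hρ h hy
    have h2 := h.m0 y
    have hψ0 := psi_nonneg (ρ := ρ) (g := g) (x := x) hB hκ hr y
    have hq : 0 ≤ psi κ ρ g x r y * (fderiv ℝ (uu κ ρ g x) y (W y) + m y) := mul_nonneg hψ0 h1
    have hT0 := TT_nonneg (κ := κ) (ρ := ρ) (g := g) (x := x) (r := r') hB y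
    have hT1 := TT_le_one (κ := κ) (ρ := ρ) (g := g) (x := x) (r := r') hB y
    have hS0 := PS_nonneg (κ := κ) (ρ := ρ) (g := g) (x := x) (r := r') hB y
    have hS1 := PS_le_one (κ := κ) (ρ := ρ) (g := g) (x := x) (r := r') hB y
    have hY0 : 0 ≤ Y y := mul_nonneg hT0 hS0
    have h3 : B y ≤ Y y * (psi κ ρ g x r y * (fderiv ℝ (uu κ ρ g x) y (W y) + m y)) := by
      rw [hBdef]
      simp only
      refine mul_le_mul_of_nonneg_left ?_ hY0
      refine mul_le_mul_of_nonneg_left ?_ hψ0
      linarith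
    refine h3.trans ?_
    rw [pr_eq]
    by_cases hT : TT κ ρ g x r' y = 0
    · have e1 : Y y = 0 := by
        rw [hY]
        simp only
        rw [hT, zero_mul]
      rw [e1, zero_mul]
      exact mul_nonneg (TT_nonneg hB y) hq
    · have e1 := TT_ne hB hκ hr' hT
      rw [TT_one hB hκ hr (by linarith)]
      refine mul_le_mul_of_nonneg_right ?_ hq
      rw [hY]
      simp only
      nlinarith
  have hright : ∫ y in closedBall x R, B y ≤ AA κ ρ R g x W m r :=
    setIntegral_mono_on (int_on cB x R) (int_on (cont_pr hB hρ h r) x R)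
      measurableSet_closedBall hBup
  have hm0 : 0 ≤ ∫ y in closedBall x r, m y :=
    setIntegral_nonneg measurableSet_closedBall fun y _ => h.m0 y
  have h160 : 160 / (κ * r') * (∫ y in closedBall x r, m y) ≤
      256 / (κ * r') * (∫ y in closedBall x r, m y) := by
    refine mul_le_mul_of_nonneg_right ?_ hm0
    exact div_le_div_of_nonneg_right (by norm_num) hκr'.le
  linarith

end Pool.Agent.Q225.VL
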