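import Pool.Agent.Q85.VL.Defs

/-!
# Job VL-4 of helper85: the lower bound of the flux near a concentration
-/

set_option autoImplicit false

open MeasureTheory Set Metric Filter Topology
open scoped ContDiff
open H459R3.NS Pool.Agent.W268.NS Pool.Agent.Q67.VD
open Pool.Agent.Q85.CC Pool.Agent.Q85.CL Pool.Agent.Q151.CC Pool.Agent.Q85.VL

namespace Pool.Agent.Q225.VL

/-! ### The square of the positive part -/

/-- the square of the positive part -/
noncomputable def sqp (t : ℝ) : ℝ := (max 0 t) ^ 2

lemma sqp_nonneg (t : ℝ) : 0 ≤ sqp t := sq_nonneg _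

lemma hd_sqp (t : ℝ) : HasDerivAt sqp (2 * max 0 t) t := by
  rcases lt_trichotomy t 0 with h | h | h
  · have e : sqp =ᶠ[𝓝 t] fun _ => 0 := by
      filter_upwards [Iio_mem_nhds h] with s hs
      unfold sqp
      rw [max_eq_left (le_of_lt hs)]
      simp
    have h2 := (hasDerivAt_const t (0 : ℝ)).congr_of_eventuallyEq e
    rw [max_eq_left h.le, mul_zero]
    exact h2
  · subst h
    rw [max_self, mul_zero, hasDerivAt_iff_isLittleO_nhds_zero]
    have h1 : (fun h : ℝ => sqp (0 + h) - sqp 0 - h • (0 : ℝ)) =O[𝓝 0] fun h : ℝ => h ^ 2 := by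
      refine Asymptotics.IsBigO.of_bound 1 (Eventually.of_forall fun h => ?_)
      have e1 : sqp 0 = 0 := by
        unfold sqp
        simp
      rw [zero_add, e1, smul_zero, sub_zero, sub_zero, one_mul, Real.norm_eq_abs,
        Real.norm_eq_abs, abs_of_nonneg (sqp_nonneg h), abs_of_nonneg (sq_nonneg h)]
      unfold sqp
      rcases le_total h 0 with h2 | h2
      · rw [max_eq_left h2]
        nlinarith [sq_nonneg h]
      · rw [max_eq_right h2]
    exact h1.trans_isLittleO (Asymptotics.isLittleO_pow_id one_lt_two)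
  · have e : sqp =ᶠ[𝓝 t] fun s => s ^ 2 := by
      filter_upwards [Ioi_mem_nhds h] with s hs
      unfold sqp
      rw [max_eq_right (le_of_lt hs)]
    have h2 := (hasDerivAt_pow 2 t).congr_of_eventuallyEq e
    rw [max_eq_right h.le]
    simpa using h2

lemma cd_sqp : ContDiff ℝ 1 sqp := by
  rw [contDiff_one_iff_deriv]
  refine ⟨fun t => (hd_sqp t).differentiableAt, ?_⟩
  have e : deriv sqp = fun t => 2 * max 0 t := funext fun t => (hd_sqp t).deriv
  rw [e]
  exact continuous_const.mul (continuous_const.max continuous_id)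

/-! ### Directional derivatives -/

lemma fd_mul {F G : V → ℝ} {y : V} (hF : DifferentiableAt ℝ F y) (hG : DifferentiableAt ℝ G y)
    (n : V) : fderiv ℝ (fun z => F z * G z) y n =
      F y * fderiv ℝ G y n + G y * fderiv ℝ F y n := by
  rw [fderiv_fun_mul hF hG]
  simp

lemma fd_comp {φ : ℝ → ℝ} {φ' : ℝ} {F : V → ℝ} {y : V} (hφ : HasDerivAt φ φ' (F y))
    (hF : DifferentiableAt ℝ F y) (n : V) :
    fderiv ℝ (fun z => φ (F z)) y n = φ' * fderiv ℝ F y n := by
  have h := hφ.comp_hasFDerivAt y hF.hasFDerivAt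
  have e : fderiv ℝ (fun z => φ (F z)) y = φ' • fderiv ℝ F y := h.fderiv
  rw [e]
  simp

lemma cont_fd {F : V → ℝ} (hF : ContDiff ℝ 1 F) {W : V → V} (hW : Continuous W) :
    Continuous (fun y => fderiv ℝ F y (W y)) :=
  (hF.continuous_fderiv one_ne_zero).clm_apply hW

lemma int_on {F : V → ℝ} (hF : Continuous F) (x : V) (R : ℝ) :
    IntegrableOn F (closedBall x R) :=
  hF.continuousOn.integrableOn_compact (isCompact_closedBall x R)

lemma len_nonneg' (a : V) : 0 ≤ len a := Real.sqrt_nonneg _

section main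

variable {κ ρ R r : ℝ} {x : V} {f m : V → ℝ} {W : V → V} {g : V → ℝ}

lemma cd_uu (hB : StmBas) (hρ : 0 < ρ) (h : LF κ R x f m W g) :
    ContDiff ℝ 1 (uu κ ρ g x) := by
  have h1 : ContDiff ℝ 1 (ds x ρ) := ((hB.2.2.2.2.2.2.2.2.2.2 x ρ hρ).1).of_le (by simp)
  unfold uu
  exact (h.gs.sub contDiff_const).sub (contDiff_const.mul h1)

lemma cd_ww (hB : StmBas) (hρ : 0 < ρ) (h : LF κ R x f m W g) :
    ContDiff ℝ 1 (ww κ ρ g x) := by
  have h1 : ContDiff ℝ 1 (ds x ρ) := ((hB.2.2.2.2.2.2.2.2.2.2 x ρ hρ).1).of_le (by simp)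
  unfold ww
  exact (h.gs.sub contDiff_const).sub (contDiff_const.mul h1)

lemma fd_lin (hB : StmBas) (hρ : 0 < ρ) (h : LF κ R x f m W g) (c : ℝ) (y n : V) :
    fderiv ℝ (fun z => g z - g x - c * ds x ρ z) y n =
      fderiv ℝ g y n - c * fderiv ℝ (ds x ρ) y n := by
  have h1 : DifferentiableAt ℝ (ds x ρ) y :=
    ((hB.2.2.2.2.2.2.2.2.2.2 x ρ hρ).1).differentiable (by simp) y
  have h2 : DifferentiableAt ℝ g y := h.gs.differentiable one_ne_zero y
  have e : HasFDerivAt (fun z => g z - g x - c * ds x ρ z)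
      (fderiv ℝ g y - c • fderiv ℝ (ds x ρ) y) y :=
    (h2.hasFDerivAt.sub_const (g x)).sub (h1.hasFDerivAt.const_mul c)
  rw [e.fderiv]
  simp

lemma fd_uu (hB : StmBas) (hρ : 0 < ρ) (h : LF κ R x f m W g) (y n : V) :
    fderiv ℝ (uu κ ρ g x) y n = fderiv ℝ g y n - κ / 2 * fderiv ℝ (ds x ρ) y n :=
  fd_lin hB hρ h (κ / 2) y n

lemma fd_ww (hB : StmBas) (hρ : 0 < ρ) (h : LF κ R x f m W g) (y n : V) :
    fderiv ℝ (ww κ ρ g x) y n = fderiv ℝ g y n - 3 * κ / 4 * fderiv ℝ (ds x ρ) y n :=
  fd_lin hB hρ h (3 * κ / 4) y n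

lemma f_nonneg (h : LF κ R x f m W g) {y : V} (hy : y ∈ closedBall x R) : 0 ≤ f y :=
  (len_nonneg' _).trans (h.up y hy)

lemma du_lower (hB : StmBas) (hκ : 0 < κ) (hρ : 0 < ρ) (h : LF κ R x f m W g) {y : V}
    (hy : y ∈ closedBall x R) : κ / 2 * f y ≤ fderiv ℝ (uu κ ρ g x) y (W y) + m y := by
  have h1 := h.lo y hy
  have h2 := (hB.2.2.2.2.2.2.2.2.2.2 x ρ hρ).2.2.2.2.2.2.2 y (W y)
  have h3 := h.up y hy
  have h4 := abs_le.1 (h2.trans h3)
  rw [fd_uu hB hρ h]
  nlinarith

lemma dw_lower (hB : StmBas) (hκ : 0 < κ) (hρ : 0 < ρ) (h : LF κ R x f m W g) {y : V}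
    (hy : y ∈ closedBall x R) : κ / 4 * f y ≤ fderiv ℝ (ww κ ρ g x) y (W y) + m y := by
  have h1 := h.lo y hy
  have h2 := (hB.2.2.2.2.2.2.2.2.2.2 x ρ hρ).2.2.2.2.2.2.2 y (W y)
  have h3 := h.up y hy
  have h4 := abs_le.1 (h2.trans h3)
  rw [fd_ww hB hρ h]
  nlinarith

lemma cd_PS (hB : StmBas) (hρ : 0 < ρ) (h : LF κ R x f m W g) (r : ℝ) :
    ContDiff ℝ 1 (PS κ ρ g x r) := by
  unfold PS
  exact hB.2.1.comp (((cd_uu hB hρ h).sub contDiff_const).div_const _)

lemma fd_PS (hB : StmBas) (hρ : 0 < ρ) (h : LF κ R x f m W g) (r : ℝ) (y n : V) :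
    fderiv ℝ (PS κ ρ g x r) y n =
      stp' ((uu κ ρ g x y - κ * r / 64) / (κ * r / 64)) / (κ * r / 64) *
        fderiv ℝ (uu κ ρ g x) y n := by
  have hu : DifferentiableAt ℝ (uu κ ρ g x) y := (cd_uu hB hρ h).differentiable one_ne_zero y
  have h1 : HasDerivAt (fun t : ℝ => stp ((t - κ * r / 64) / (κ * r / 64)))
      (stp' ((uu κ ρ g x y - κ * r / 64) / (κ * r / 64)) * (1 / (κ * r / 64)))
      (uu κ ρ g x y) :=
    (hB.1 _).comp _ (((hasDerivAt_id _).sub_const _).div_const _)
  have h2 := fd_comp h1 hu n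
  change fderiv ℝ (fun z => stp ((uu κ ρ g x z - κ * r / 64) / (κ * r / 64))) y n = _
  rw [h2]
  ring

end main

theorem stmLB (hB : StmBas) : StmLB := by
  intro κ ρ R r x f m W g hκ hκ1 hρ h hρr hrR
  obtain ⟨b1, b2, b3, b4, b5, b6, b7, b8, b9, b10, bd⟩ := hB
  have hB : StmBas := ⟨b1, b2, b3, b4, b5, b6, b7, b8, b9, b10, bd⟩
  obtain ⟨d1, d2, d3, d4, d5, d6, d7, d8⟩ := bd x ρ hρ
  have hr0 : 0 < r := lt_of_lt_of_le (by positivity) hρr
  have hρr' : 128 * ρ ≤ κ * r := by
    have h1 := mul_le_mul_of_nonneg_left hρr hκ.le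
    have h2 : κ * (128 / κ * ρ) = 128 * ρ := by
      field_simp
    linarith
  have hκr : 0 < κ * r / 64 := by positivity
  have hρR : ρ ≤ R := by nlinarith
  -- the functions
  set u := uu κ ρ g x with hu
  set w := ww κ ρ g x with hw
  have hdpos : ∀ y, 0 < ds x ρ y := fun y => lt_of_lt_of_le hρ (d3 y)
  have huw : ∀ y, u y - w y = κ / 4 * ds x ρ y := by
    intro y
    rw [hu, hw]
    unfold uu ww
    ring
  have cu : ContDiff ℝ 1 u := cd_uu hB hρ h
  have cw : ContDiff ℝ 1 w := cd_ww hB hρ h
  set S := PS κ ρ g x r with hS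
  have cS : ContDiff ℝ 1 S := cd_PS hB hρ h r
  set P : V → ℝ := fun y => sqp (w y + 8 * ρ) with hP
  have cP : ContDiff ℝ 1 P := cd_sqp.comp (cw.add contDiff_const)
  set H : V → ℝ := fun y => (1 - S y) * P y with hH
  have cH : ContDiff ℝ 1 H := (contDiff_const.sub cS).mul cP
  set ψ : V → ℝ := fun y => stp' ((u y - κ * r / 64) / (κ * r / 64)) / (κ * r / 64) with hψ
  have hψ0 : ∀ y, 0 ≤ ψ y := fun y => div_nonneg (b5 _).2.2.1 hκr.le
  -- where `H` lives
  have hsupp : ∀ y, 1 - S y ≠ 0 → 0 < w y + 8 * ρ → y ∈ closedBall x (3 * r / 8) ∧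
      w y + 8 * ρ ≤ κ * r / 8 := by
    intro y h1 h2
    have h3 : (u y - κ * r / 64) / (κ * r / 64) < 1 := by
      refine b10 _ fun h4 => h1 ?_
      change stp ((u y - κ * r / 64) / (κ * r / 64)) = 1 at h4
      have h5 : S y = 1 := h4
      rw [h5, sub_self]
    rw [div_lt_one hκr] at h3
    have h4 := huw y
    have h5 := hdpos y
    have h6 : κ / 4 * ds x ρ y ≤ κ / 4 * (3 * r / 8) := by nlinarith
    have h7 : ds x ρ y ≤ 3 * r / 8 := le_of_mul_le_mul_left h6 (by positivity)
    refine ⟨?_, ?_⟩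
    · rw [mem_closedBall, dist_eq_norm]
      exact (d5 y).trans h7
    · nlinarith
  have hts : tsupport H ⊆ closedBall x R := by
    refine closure_minimal (fun y hy => ?_) isClosed_closedBall
    rw [Function.mem_support] at hy
    have h1 : 1 - S y ≠ 0 := fun h1 => hy (by rw [hH]; simp only; rw [h1, zero_mul])
    have h2 : 0 < w y + 8 * ρ := by
      by_contra h2
      push Not at h2
      apply hy
      have : P y = 0 := by
        rw [hP]
        simp only
        unfold sqp
        rw [max_eq_left h2]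
        simp
      rw [hH]
      simp only
      rw [this, mul_zero]
    exact closedBall_subset_closedBall (by linarith) (hsupp y h1 h2).1
  have hdiv := h.wd.div H cH hts
  -- the derivative of `H`
  set A : V → ℝ := fun y => (1 - S y) * (2 * max 0 (w y + 8 * ρ) * fderiv ℝ w y (W y)) with hA
  set B : V → ℝ := fun y => P y * (ψ y * fderiv ℝ u y (W y)) with hBdef
  have hfd : ∀ y, fderiv ℝ H y (W y) = A y - B y := by
    intro y
    have e1 : DifferentiableAt ℝ (fun y => 1 - S y) y :=
      (contDiff_const.sub cS).differentiable one_ne_zero y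
    have e2 : DifferentiableAt ℝ P y := cP.differentiable one_ne_zero y
    have e3 : fderiv ℝ (fun y => 1 - S y) y (W y) = -(ψ y * fderiv ℝ u y (W y)) := by
      rw [fderiv_const_sub]
      have := fd_PS hB hρ h r y (W y)
      change -(fderiv ℝ S y (W y)) = _
      rw [this]
    have e4 : fderiv ℝ P y (W y) = 2 * max 0 (w y + 8 * ρ) * fderiv ℝ w y (W y) := by
      have e5 := fd_comp (F := fun y => w y + 8 * ρ) (y := y) (hd_sqp (w y + 8 * ρ))
        ((cw.add contDiff_const).differentiable one_ne_zero y) (W y)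
      rw [hP, e5, fderiv_add_const]
    have e6 := fd_mul e1 e2 (W y)
    change fderiv ℝ (fun z => (1 - S z) * P z) y (W y) = _
    rw [e6, e3, e4, hA, hBdef]
    simp only
    ring
  have hWc := h.wd.cont
  have cA : Continuous A := by
    rw [hA]
    exact (continuous_const.sub cS.continuous).mul ((continuous_const.mul
      (continuous_const.max (cw.continuous.add continuous_const))).mul (cont_fd cw hWc))
  have cψ : Continuous ψ := by
    rw [hψ]
    exact (b3.comp ((cu.continuous.sub continuous_const).div_const _)).div_const _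
  have cB : Continuous B := by
    rw [hBdef]
    exact cP.continuous.mul (cψ.mul (cont_fd cu hWc))
  have hAB : ∫ y in closedBall x R, A y = ∫ y in closedBall x R, B y := by
    rw [integral_congr_ae (Eventually.of_forall hfd), integral_sub (int_on cA x R)
      (int_on cB x R)] at hdiv
    linarith
  -- the left hand side
  have hS01 : ∀ y, 0 ≤ 1 - S y := fun y => by
    have : S y ≤ 1 := (b5 _).2.1
    linarith
  have hAlow : ∀ y ∈ closedBall x R, (closedBall x ρ).indicator (fun y => 2 * κ * ρ * f y) y -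
      (closedBall x r).indicator (fun y => κ * r / 4 * m y) y ≤ A y := by
    intro y hy
    have h1 := dw_lower hB hκ hρ h hy
    have h2 := f_nonneg h hy
    have h3 := h.m0 y
    have h4 : 0 ≤ (1 - S y) * (2 * max 0 (w y + 8 * ρ)) :=
      mul_nonneg (hS01 y) (mul_nonneg (by norm_num) (le_max_left _ _))
    have h5 : A y = (1 - S y) * (2 * max 0 (w y + 8 * ρ)) * fderiv ℝ w y (W y) := by
      rw [hA]
      simp only
      ring
    have h6 : (1 - S y) * (2 * max 0 (w y + 8 * ρ)) * (κ / 4 * f y) -
        (1 - S y) * (2 * max 0 (w y + 8 * ρ)) * m y ≤ A y := by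
      rw [h5, ← mul_sub]
      exact mul_le_mul_of_nonneg_left (by linarith) h4
    have h7 : (closedBall x ρ).indicator (fun y => 2 * κ * ρ * f y) y ≤
        (1 - S y) * (2 * max 0 (w y + 8 * ρ)) * (κ / 4 * f y) := by
      by_cases hyρ : y ∈ closedBall x ρ
      · rw [indicator_of_mem hyρ]
        rw [mem_closedBall, dist_eq_norm] at hyρ
        have e1 := d6 y hyρ
        have e2 := abs_le.1 (h.lip y x)
        have e3 := d2 y
        have e4 : u y ≤ κ * r / 64 := by
          rw [hu]
          unfold uu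
          nlinarith [hdpos y]
        have e5 : 4 * ρ ≤ w y + 8 * ρ := by
          rw [hw]
          unfold ww
          nlinarith [hdpos y]
        have e6 : S y = 0 := by
          refine b6 _ ?_
          exact div_nonpos_of_nonpos_of_nonneg (by linarith) hκr.le
        rw [e6, sub_zero, one_mul, max_eq_right (by linarith)]
        have e7 : 0 ≤ κ / 4 * f y := by positivity
        nlinarith
      · rw [indicator_of_notMem hyρ]
        exact mul_nonneg h4 (by positivity)
    have h8 : (1 - S y) * (2 * max 0 (w y + 8 * ρ)) * m y ≤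
        (closedBall x r).indicator (fun y => κ * r / 4 * m y) y := by
      by_cases hz : 1 - S y ≠ 0 ∧ 0 < w y + 8 * ρ
      · obtain ⟨e1, e2⟩ := hsupp y hz.1 hz.2
        rw [indicator_of_mem (closedBall_subset_closedBall (by linarith) e1)]
        refine mul_le_mul_of_nonneg_right ?_ h3
        rw [max_eq_right hz.2.le]
        have e3 : 1 - S y ≤ 1 := by
          have : 0 ≤ S y := (b5 _).1
          linarith
        nlinarith [hS01 y, hz.2]
      · have e1 : (1 - S y) * (2 * max 0 (w y + 8 * ρ)) = 0 := by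
          by_cases e2 : 1 - S y = 0
          · rw [e2, zero_mul]
          · have e3 : w y + 8 * ρ ≤ 0 := by
              by_contra e4
              exact hz ⟨e2, not_le.1 e4⟩
            rw [max_eq_left e3]
            ring
        rw [e1, zero_mul]
        refine indicator_nonneg (fun y _ => ?_) y
        have := h.m0 y
        positivity
    linarith
  have hleft : 2 * κ * ρ * (∫ y in closedBall x ρ, f y) -
      κ * r / 4 * (∫ y in closedBall x r, m y) ≤ ∫ y in closedBall x R, A y := by
    have i1 : IntegrableOn ((closedBall x ρ).indicator (fun y => 2 * κ * ρ * f y))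
        (closedBall x R) :=
      (int_on (continuous_const.mul h.fc) x R).indicator measurableSet_closedBall
    have i2 : IntegrableOn ((closedBall x r).indicator (fun y => κ * r / 4 * m y))
        (closedBall x R) :=
      (int_on (continuous_const.mul h.mc) x R).indicator measurableSet_closedBall
    have e1 : 2 * κ * ρ * (∫ y in closedBall x ρ, f y) -
        κ * r / 4 * (∫ y in closedBall x r, m y) = ∫ y in closedBall x R,
        ((closedBall x ρ).indicator (fun y => 2 * κ * ρ * f y) y -
          (closedBall x r).indicator (fun y => κ * r / 4 * m y) y) := by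
      rw [integral_sub i1 i2, setIntegral_indicator measurableSet_closedBall,
        setIntegral_indicator measurableSet_closedBall,
        inter_eq_right.2 (closedBall_subset_closedBall hρR),
        inter_eq_right.2 (closedBall_subset_closedBall hrR), integral_const_mul,
        integral_const_mul]
    rw [e1]
    exact setIntegral_mono_on (i1.sub i2) (int_on cA x R) measurableSet_closedBall hAlow
  -- the right hand side
  have hBup : ∀ y ∈ closedBall x R, B y ≤ (κ * r / 8) ^ 2 * pr κ ρ g x W m r y := by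
    intro y hy
    have h1 : 0 ≤ fderiv ℝ u y (W y) + m y := by
      have := du_lower hB hκ hρ h hy
      have := f_nonneg h hy
      have : 0 ≤ κ / 2 * f y := by positivity
      linarith
    have h2 := h.m0 y
    have hpr : pr κ ρ g x W m r y = TT κ ρ g x r y * (ψ y * (fderiv ℝ u y (W y) + m y)) := rfl
    have hP0 : 0 ≤ P y := sqp_nonneg _
    have hT0 : 0 ≤ TT κ ρ g x r y := (b5 _).1
    have hq : 0 ≤ ψ y * (fderiv ℝ u y (W y) + m y) := mul_nonneg (hψ0 y) h1
    have h3 : B y ≤ P y * (ψ y * (fderiv ℝ u y (W y) + m y)) := by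
      rw [hBdef]
      simp only
      refine mul_le_mul_of_nonneg_left ?_ hP0
      refine mul_le_mul_of_nonneg_left ?_ (hψ0 y)
      linarith
    refine h3.trans ?_
    rw [hpr]
    by_cases hz : ψ y = 0
    · rw [hz]
      simp
    by_cases hwz : 0 < w y + 8 * ρ
    · have e1 : (u y - κ * r / 64) / (κ * r / 64) < 1 := by
        refine (b8 _ fun e => hz ?_).2
        rw [hψ]
        simp only
        rw [e, zero_div]
      rw [div_lt_one hκr] at e1
      have e2 := huw y
      have e3 : 0 < κ / 4 * ds x ρ y := mul_pos (by positivity) (hdpos y)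
      have e4 : w y + 8 * ρ ≤ κ * r / 8 := by nlinarith
      have e5 : P y ≤ (κ * r / 8) ^ 2 := by
        rw [hP]
        simp only
        unfold sqp
        rw [max_eq_right hwz.le]
        exact pow_le_pow_left₀ hwz.le e4 2
      have e6 : TT κ ρ g x r y = 1 := by
        refine b7 _ ?_
        rw [le_div_iff₀ (by positivity)]
        change 1 * (κ * r / 16) ≤ w y + κ * r / 8
        linarith
      rw [e6, one_mul]
      exact mul_le_mul_of_nonneg_right e5 hq
    · have e1 : P y = 0 := by
        rw [hP]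
        simp only
        unfold sqp
        rw [max_eq_left (not_lt.1 hwz)]
        simp
      rw [e1, zero_mul]
      exact mul_nonneg (sq_nonneg _) (mul_nonneg hT0 hq)
  have cpr : Continuous (pr κ ρ g x W m r) := by
    have cT : Continuous (TT κ ρ g x r) := by
      unfold TT
      exact b2.continuous.comp ((cw.continuous.add continuous_const).div_const _)
    have e : pr κ ρ g x W m r = fun y => TT κ ρ g x r y *
        (ψ y * (fderiv ℝ u y (W y) + m y)) := rfl
    rw [e]
    exact cT.mul (cψ.mul ((cont_fd cu hWc).add h.mc))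
  have hright : ∫ y in closedBall x R, B y ≤ (κ * r / 8) ^ 2 * AA κ ρ R g x W m r := by
    unfold AA
    rw [← integral_const_mul]
    exact setIntegral_mono_on (int_on cB x R) (int_on (continuous_const.mul cpr) x R)
      measurableSet_closedBall hBup
  linarith

end Pool.Agent.Q225.VL
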