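import Pool.Agent.Q225.VL.Cmp

/-!
# Job VL-2 of helper85: the flux is bounded by the integral of `f`
-/

set_option autoImplicit false

open MeasureTheory Set Metric Filter Topology
open scoped ContDiff
open H459R3.NS Pool.Agent.W268.NS Pool.Agent.Q67.VD
open Pool.Agent.Q85.CC Pool.Agent.Q85.CL Pool.Agent.Q151.CC Pool.Agent.Q85.VL

namespace Pool.Agent.Q225.VL

lemma len_smul' (t : ℝ) (a : V) : len (t • a) = |t| * len a := by
  unfold len
  rw [smul_dotProduct, dotProduct_smul, smul_eq_mul, smul_eq_mul, ← mul_assoc, ← sq,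
    Real.sqrt_mul (sq_nonneg t), Real.sqrt_sq_eq_abs]

/-- a function with Lipschitz constant one for the Euclidean length -/
lemma fderiv_le_len {g : V → ℝ} (hg : ContDiff ℝ 1 g) (hl : ∀ y z, |g y - g z| ≤ len (y - z))
    (y n : V) : |fderiv ℝ g y n| ≤ len n := by
  have h1 := ((hg.differentiable one_ne_zero y).hasFDerivAt.lim_real n).abs
  refine le_of_tendsto h1 ?_
  filter_upwards [eventually_gt_atTop (0 : ℝ)] with c hc
  rw [smul_eq_mul, abs_mul]
  have h2 := hl (y + c⁻¹ • n) y
  rw [add_sub_cancel_left, len_smul', abs_inv] at h2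
  have h3 : 0 < |c| := abs_pos.2 hc.ne'
  calc |c| * |g (y + c⁻¹ • n) - g y| ≤ |c| * (|c|⁻¹ * len n) :=
        mul_le_mul_of_nonneg_left h2 h3.le
    _ = len n := by rw [← mul_assoc, mul_inv_cancel₀ h3.ne', one_mul]

theorem stmUB (hB : StmBas) : StmUB := by
  intro κ ρ R r x f m W g hκ hκ1 hρ h hr hrR
  have hκr : 0 < κ * r := by positivity
  have hpt : ∀ y ∈ closedBall x R, pr κ ρ g x W m r y ≤
      (closedBall x r).indicator (fun y => 128 / (κ * r) * (2 * f y + m y)) y := by
    intro y hy
    have h2 := f_nonneg h hy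
    have h3 := h.m0 y
    by_cases hz : psi κ ρ g x r y = 0 ∨ TT κ ρ g x r y = 0
    · have e1 : pr κ ρ g x W m r y = 0 := by
        rw [pr_eq]
        rcases hz with hz | hz
        · rw [hz]
          ring
        · rw [hz]
          ring
      rw [e1]
      by_cases hyr : y ∈ closedBall x r
      · rw [indicator_of_mem hyr]
        positivity
      · rw [indicator_of_notMem hyr]
    · push Not at hz
      have e1 := psi_ne hB hκ hr hz.1
      have e2 := TT_ne hB hκ hr hz.2
      have e4 : y ∈ closedBall x r := ball_of hB hκ hρ e1.2.le e2.le (by linarith)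
      rw [indicator_of_mem e4, pr_eq]
      have e5 : fderiv ℝ (uu κ ρ g x) y (W y) + m y ≤ 2 * f y + m y := by
        have e6 := (abs_le.1 (fderiv_le_len h.gs h.lip y (W y))).2
        have e7 := (abs_le.1 ((hB.2.2.2.2.2.2.2.2.2.2 x ρ hρ).2.2.2.2.2.2.2 y (W y))).1
        have e8 := h.up y hy
        rw [fd_uu hB hρ h]
        have e9 : -(κ / 2 * fderiv ℝ (ds x ρ) y (W y)) ≤ f y := by
          have e10 : 0 ≤ len (W y) := len_nonneg' _
          nlinarith
        linarith
      have e6 := psi_le (ρ := ρ) (g := g) (x := x) hB hκ hr y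
      have e7 := psi_nonneg (ρ := ρ) (g := g) (x := x) hB hκ hr y
      have e8 := TT_le_one (κ := κ) (ρ := ρ) (g := g) (x := x) (r := r) hB y
      have e9 := du_nonneg hB hκ hρ h hy
      have e10 : psi κ ρ g x r y * (fderiv ℝ (uu κ ρ g x) y (W y) + m y) ≤
          128 / (κ * r) * (2 * f y + m y) :=
        mul_le_mul e6 e5 e9 (by positivity)
      have e11 : 0 ≤ psi κ ρ g x r y * (fderiv ℝ (uu κ ρ g x) y (W y) + m y) :=
        mul_nonneg e7 e9
      nlinarith
  have i2 : IntegrableOn ((closedBall x r).indicator (fun y => 128 / (κ * r) * (2 * f y + m y)))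
      (closedBall x R) :=
    (int_on (continuous_const.mul ((continuous_const.mul h.fc).add h.mc)) x R).indicator
      measurableSet_closedBall
  have h1 : AA κ ρ R g x W m r ≤ ∫ y in closedBall x R,
      (closedBall x r).indicator (fun y => 128 / (κ * r) * (2 * f y + m y)) y :=
    setIntegral_mono_on (int_on (cont_pr hB hρ h r) x R) i2 measurableSet_closedBall hpt
  rw [setIntegral_indicator measurableSet_closedBall,
    inter_eq_right.2 (closedBall_subset_closedBall hrR), integral_const_mul] at h1
  exact h1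

end Pool.Agent.Q225.VL
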